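import Mathlib
import Pool.Agent.helper68.AM.Spec
import Pool.Agent.helper68.AM.Tree

/-!
Project sl: (AM), module GP: points between the curved and the straight boundary.
-/

set_option autoImplicit false

namespace AM

open Pool.Agent.helper72.Sq Finset

/-- crude bound for the number of lattice points of a triangle -/
lemma GP_lin (l1 l2 r : ℝ) (h1 : 0 < l1) (h2 : 0 < l2) (hr : 1 ≤ r) :
    ((LinSet l1 l2 r).ncard : ℝ) ≤ 1 / l1 * (1 / l2 + 1) * r ^ 2 := by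
  have hr0 : 0 ≤ r := by linarith
  have hsub : LinSet l1 l2 r ⊆
      ((Finset.Icc 1 ⌊r / l1⌋₊ ×ˢ range (⌊r / l2⌋₊ + 1) : Finset (ℕ × ℕ)) : Set (ℕ × ℕ)) := by
    rintro ⟨p, q⟩ ⟨hp, hv⟩
    simp only at hp hv
    have hp0 : (0 : ℝ) ≤ p * l1 := by positivity
    have hq0 : (0 : ℝ) ≤ q * l2 := by positivity
    rw [Finset.mem_coe, Finset.mem_product, Finset.mem_Icc, Finset.mem_range]
    refine ⟨⟨hp, ?_⟩, ?_⟩
    · apply Nat.le_floor
      rw [le_div_iff₀ h1]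
      linarith
    · apply Nat.lt_succ_of_le
      apply Nat.le_floor
      rw [le_div_iff₀ h2]
      linarith
  have hc := Set.ncard_le_ncard hsub (Finset.finite_toSet _)
  rw [Set.ncard_coe_finset, Finset.card_product, Nat.card_Icc, Finset.card_range,
    Nat.add_sub_cancel] at hc
  have hc' : ((LinSet l1 l2 r).ncard : ℝ) ≤ (⌊r / l1⌋₊ : ℝ) * ((⌊r / l2⌋₊ : ℝ) + 1) := by
    exact_mod_cast hc
  have f1 : (⌊r / l1⌋₊ : ℝ) ≤ r / l1 := Nat.floor_le (by positivity)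
  have f2 : (⌊r / l2⌋₊ : ℝ) ≤ r / l2 := Nat.floor_le (by positivity)
  calc ((LinSet l1 l2 r).ncard : ℝ) ≤ (⌊r / l1⌋₊ : ℝ) * ((⌊r / l2⌋₊ : ℝ) + 1) := hc'
    _ ≤ r / l1 * (r / l2 + r) := by
        apply mul_le_mul f1 (by linarith) (by positivity) (by positivity)
    _ = _ := by ring

/-- number of `d` in a block with `R / d < v ≤ R / d + η` -/
lemma GP_count (j : ℕ) (R v η : ℝ) (N1 N2 : ℕ) (hR : 1 ≤ R) (hη : 0 ≤ η)
    (hN2 : (N2 : ℝ) ≤ R / 2 ^ j) :
    (((Ioc N1 N2).filter (fun d : ℕ => R / d < v ∧ v ≤ R / d + η)).card : ℝ) ≤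
      1 + R * η / 4 ^ j := by
  set S := (Ioc N1 N2).filter (fun d : ℕ => R / d < v ∧ v ≤ R / d + η) with hS
  rcases S.eq_empty_or_nonempty with he | hne
  · rw [he]
    simp only [Finset.card_empty, Nat.cast_zero]
    positivity
  · set a := S.min' hne with ha
    set b := S.max' hne with hb
    have hab : a ≤ b := S.min'_le b (S.max'_mem hne)
    have hsub : S ⊆ Finset.Icc a b := by
      intro d hd
      rw [Finset.mem_Icc]
      exact ⟨S.min'_le d hd, S.le_max' d hd⟩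
    have hcard : S.card ≤ b + 1 - a := by
      have := Finset.card_le_card hsub
      rwa [Nat.card_Icc] at this
    have hcard' : (S.card : ℝ) ≤ 1 + ((b : ℝ) - a) := by
      have h1 : S.card + a ≤ b + 1 := by omega
      have h2 : (S.card : ℝ) + a ≤ b + 1 := by exact_mod_cast h1
      linarith
    have ma : a ∈ S := S.min'_mem hne
    have mb : b ∈ S := S.max'_mem hne
    rw [hS, Finset.mem_filter, Finset.mem_Ioc] at ma mb
    obtain ⟨⟨ma1, ma2⟩, ma3, ma4⟩ := ma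
    obtain ⟨⟨mb1, mb2⟩, mb3, mb4⟩ := mb
    have a0 : (0 : ℝ) < a := by
      have : 0 < a := by omega
      exact_mod_cast this
    have b0 : (0 : ℝ) < b := by
      have : 0 < b := by omega
      exact_mod_cast this
    have a1 : (a : ℝ) ≤ R / 2 ^ j := le_trans (by exact_mod_cast ma2) hN2
    have b1 : (b : ℝ) ≤ R / 2 ^ j := le_trans (by exact_mod_cast mb2) hN2
    have hR0 : 0 < R := by linarith
    have key : R / a - R / b ≤ η := by linarith
    have key2 : R * (b - a) ≤ η * (a * b) := by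
      have e : R / a - R / b = R * (b - a) / (a * b) := by
        field_simp
      rw [e, div_le_iff₀ (by positivity)] at key
      linarith
    have key3 : (a : ℝ) * b ≤ R ^ 2 / 4 ^ j := by
      have : (a : ℝ) * b ≤ R / 2 ^ j * (R / 2 ^ j) := by
        apply mul_le_mul a1 b1 b0.le (by positivity)
      have e4 : (4 : ℝ) ^ j = 2 ^ j * 2 ^ j := by
        rw [← mul_pow]; norm_num
      rw [e4]
      calc (a : ℝ) * b ≤ R / 2 ^ j * (R / 2 ^ j) := this
        _ = _ := by field_simp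
    have key4 : (b : ℝ) - a ≤ R * η / 4 ^ j := by
      have h1 : R * ((b : ℝ) - a) ≤ R * (R * η / 4 ^ j) := by
        calc R * ((b : ℝ) - a) ≤ η * (a * b) := key2
          _ ≤ η * (R ^ 2 / 4 ^ j) := by gcongr
          _ = _ := by ring
      exact le_of_mul_le_mul_left h1 hR0
    linarith

/-- one leaf -/
lemma GP_leaf {c c' k t0 : ℝ} (hc : 0 < c) (j : ℕ) (hj : 1 ≤ j) (R : ℝ) (N1 N2 : ℕ) (hR : 1 ≤ R)
    (hN1 : R / 2 ^ (j + 1) ≤ (N1 : ℝ) + 1) (hN2 : (N2 : ℝ) ≤ R / 2 ^ j) (y : Nd)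
    (hG : GN c c' k t0 y)
    (hsw : ∀ r : ℝ, 0 ≤ r → r ≤ 2 ^ (5 * j) → HS y.t r ⊆ LinSet y.l1 y.l2 (r + 1 / 2 ^ (8 * j))) :
    ∑ d ∈ Ioc N1 N2,
      (((HS y.t (R / d)).ncard : ℝ) - ((LinSet y.l1 y.l2 (R / d)).ncard : ℝ)) ≤
      (1 + R / 8 ^ j) * H y.t (2 ^ (j + 1) + 1) := by
  classical
  have l1p : 0 < y.l1 := lt_of_lt_of_le hc (hG.l1_ge' hc)
  have l2p : 0 < y.l2 := lt_of_lt_of_le hc (hG.l2_ge' hc)
  set ρ : ℝ := 2 ^ (j + 1) + 1 with hρ
  set η : ℝ := 1 / 2 ^ (8 * j) with hη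
  have hη0 : 0 ≤ η := by positivity
  have hη1 : η ≤ 1 := by
    rw [hη, div_le_one (by positivity)]
    exact one_le_pow₀ (by norm_num)
  set F := (LinSet_finite y.l1 y.l2 ρ l1p l2p).toFinset with hF
  have hFc : (F.card : ℝ) ≤ H y.t ρ := by
    unfold H
    rw [hF, ← Set.ncard_eq_toFinset_card _ (LinSet_finite y.l1 y.l2 ρ l1p l2p)]
    exact_mod_cast Set.ncard_le_ncard (LinSet_subset_HS hG.gr ρ) (HS_finite hG.gr ρ)
  have step : ∀ d ∈ Ioc N1 N2,
      (((HS y.t (R / d)).ncard : ℝ) - ((LinSet y.l1 y.l2 (R / d)).ncard : ℝ)) ≤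
      ∑ pq ∈ F, (if R / d < pq.1 * y.l1 + pq.2 * y.l2 ∧
        pq.1 * y.l1 + pq.2 * y.l2 ≤ R / d + η then (1 : ℝ) else 0) := by
    intro d hd
    rw [Finset.mem_Ioc] at hd
    have d0 : (0 : ℝ) < d := by
      have : 0 < d := by omega
      exact_mod_cast this
    have d1 : (N1 : ℝ) + 1 ≤ d := by exact_mod_cast hd.1
    have d2 : (d : ℝ) ≤ N2 := by exact_mod_cast hd.2
    have hr0 : 0 ≤ R / d := by positivity
    have hr1 : R / d ≤ 2 ^ (j + 1) := by
      rw [div_le_iff₀ d0]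
      have h1 : R / 2 ^ (j + 1) ≤ d := hN1.trans d1
      rw [div_le_iff₀ (by positivity)] at h1
      linarith
    have hr2 : R / d ≤ 2 ^ (5 * j) := by
      refine hr1.trans ?_
      apply pow_le_pow_right₀ (by norm_num)
      omega
    have hs := hsw (R / d) hr0 hr2
    have hfin := LinSet_finite y.l1 y.l2 (R / d + η) l1p l2p
    have hc1 : ((HS y.t (R / d)).ncard : ℝ) ≤ ((LinSet y.l1 y.l2 (R / d + η)).ncard : ℝ) := by
      exact_mod_cast Set.ncard_le_ncard hs hfin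
    have hmono : LinSet y.l1 y.l2 (R / d) ⊆ LinSet y.l1 y.l2 (R / d + η) := by
      rintro pq ⟨h1, h2⟩
      exact ⟨h1, by linarith⟩
    have hdiff : ((LinSet y.l1 y.l2 (R / d + η)).ncard : ℝ) -
        ((LinSet y.l1 y.l2 (R / d)).ncard : ℝ) =
        ((LinSet y.l1 y.l2 (R / d + η) \ LinSet y.l1 y.l2 (R / d)).ncard : ℝ) := by
      have := Set.ncard_sdiff_add_ncard_of_subset hmono hfin
      have h2 : ((LinSet y.l1 y.l2 (R / d + η) \ LinSet y.l1 y.l2 (R / d)).ncard : ℝ) +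
        ((LinSet y.l1 y.l2 (R / d)).ncard : ℝ) = ((LinSet y.l1 y.l2 (R / d + η)).ncard : ℝ) := by
        exact_mod_cast this
      linarith
    have hlast : ((LinSet y.l1 y.l2 (R / d + η) \ LinSet y.l1 y.l2 (R / d)).ncard : ℝ) ≤
        ∑ pq ∈ F, (if R / d < pq.1 * y.l1 + pq.2 * y.l2 ∧
          pq.1 * y.l1 + pq.2 * y.l2 ≤ R / d + η then (1 : ℝ) else 0) := by
      rw [Finset.sum_boole]
      have hsub : LinSet y.l1 y.l2 (R / d + η) \ LinSet y.l1 y.l2 (R / d) ⊆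
          ((F.filter (fun pq : ℕ × ℕ => R / d < pq.1 * y.l1 + pq.2 * y.l2 ∧
          pq.1 * y.l1 + pq.2 * y.l2 ≤ R / d + η) : Finset (ℕ × ℕ)) : Set (ℕ × ℕ)) := by
        rintro pq ⟨⟨h1, h2⟩, h3⟩
        rw [Finset.mem_coe, Finset.mem_filter, hF, Set.Finite.mem_toFinset]
        refine ⟨⟨h1, by linarith⟩, ?_, h2⟩
        by_contra hcon
        exact h3 ⟨h1, not_lt.mp hcon⟩
      have := Set.ncard_le_ncard hsub (Finset.finite_toSet _)
      rw [Set.ncard_coe_finset] at this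
      exact_mod_cast this
    linarith
  calc ∑ d ∈ Ioc N1 N2,
      (((HS y.t (R / d)).ncard : ℝ) - ((LinSet y.l1 y.l2 (R / d)).ncard : ℝ))
      ≤ ∑ d ∈ Ioc N1 N2, ∑ pq ∈ F, (if R / d < pq.1 * y.l1 + pq.2 * y.l2 ∧
        pq.1 * y.l1 + pq.2 * y.l2 ≤ R / d + η then (1 : ℝ) else 0) := Finset.sum_le_sum step
    _ = ∑ pq ∈ F, ∑ d ∈ Ioc N1 N2, (if R / d < pq.1 * y.l1 + pq.2 * y.l2 ∧
        pq.1 * y.l1 + pq.2 * y.l2 ≤ R / d + η then (1 : ℝ) else 0) := Finset.sum_comm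
    _ ≤ ∑ pq ∈ F, (1 + R / 8 ^ j) := by
        apply Finset.sum_le_sum
        intro pq _
        rw [Finset.sum_boole]
        refine (GP_count j R (pq.1 * y.l1 + pq.2 * y.l2) η N1 N2 hR hη0 hN2).trans ?_
        have : R * η / 4 ^ j ≤ R / 8 ^ j := by
          have e8 : (8 : ℝ) ^ j = 2 ^ j * 4 ^ j := by rw [← mul_pow]; norm_num
          have e2 : η ≤ 1 / 2 ^ j := by
            rw [hη]
            apply one_div_le_one_div_of_le (by positivity)
            apply pow_le_pow_right₀ (by norm_num)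
            omega
          calc R * η / 4 ^ j ≤ R * (1 / 2 ^ j) / 4 ^ j := by gcongr
            _ = R / 8 ^ j := by rw [e8]; field_simp
        linarith
    _ = (1 + R / 8 ^ j) * F.card := by
        rw [Finset.sum_const, nsmul_eq_mul]; ring
    _ ≤ _ := by
        apply mul_le_mul_of_nonneg_left hFc
        have : 0 ≤ R / 8 ^ j := by positivity
        linarith

theorem GP : GP_stmt := by
  intro P C0 hP hSW
  set a := ltau P.1 with ha
  set b := ltau P.2.1 with hb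
  have a0 : 0 < a := ltau_pos hP.x2
  have b0 : 0 < b := ltau_pos hP.y2
  refine ⟨9 * (1 / a * (1 / b + 1)), by positivity, ?_⟩
  intro j hj R N1 N2 hR hN1 hN2
  have hPar := Par_of_Gr hP
  have hGr := GN_rt hP
  have h1 : lsum (C0 * j) (C0 * j) (rt P) (fun y => ∑ d ∈ Ioc N1 N2,
      (((HS y.t (R / d)).ncard : ℝ) - ((LinSet y.l1 y.l2 (R / d)).ncard : ℝ))) ≤
      lsum (C0 * j) (C0 * j) (rt P) (fun y => (1 + R / 8 ^ j) * H y.t (2 ^ (j + 1) + 1)) := by
    apply lsum_le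
    intro y hy
    exact GP_leaf hPar.c0 j hj R N1 N2 hR hN1 hN2 y (GN_lvs _ _ _ hGr y hy)
      (fun r h0 h5 => hSW.2 j hj y hy r h0 h5)
  refine h1.trans ?_
  rw [lsum_mul, lsum_H hP]
  have h2 : H P (2 ^ (j + 1) + 1) ≤ 1 / a * (1 / b + 1) * (2 ^ (j + 1) + 1) ^ 2 := by
    have hr : (1 : ℝ) ≤ 2 ^ (j + 1) + 1 := by
      have : (0 : ℝ) < 2 ^ (j + 1) := by positivity
      linarith
    refine le_trans ?_ (GP_lin a b _ a0 b0 hr)
    unfold H
    exact_mod_cast Set.ncard_le_ncard (HS_subset_ltau hP _) (LinSet_finite _ _ _ a0 b0)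
  have h3 : ((2 : ℝ) ^ (j + 1) + 1) ^ 2 ≤ 9 * 4 ^ j := by
    have e4 : (4 : ℝ) ^ j = (2 ^ j) ^ 2 := by rw [← pow_mul, mul_comm, pow_mul]; norm_num
    have h1 : (1 : ℝ) ≤ 2 ^ j := one_le_pow₀ (by norm_num)
    have e5 : (2 : ℝ) ^ (j + 1) = 2 * 2 ^ j := by rw [pow_succ]; ring
    rw [e4, e5]
    nlinarith
  have hK : 0 ≤ 1 / a * (1 / b + 1) := by positivity
  have h4 : 0 ≤ R / 8 ^ j := by positivity
  calc (1 + R / 8 ^ j) * H P (2 ^ (j + 1) + 1)
      ≤ (1 + R / 8 ^ j) * (1 / a * (1 / b + 1) * (9 * 4 ^ j)) := by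
        apply mul_le_mul_of_nonneg_left _ (by linarith)
        exact h2.trans (mul_le_mul_of_nonneg_left h3 hK)
    _ = 9 * (1 / a * (1 / b + 1)) * (4 ^ j + R / 8 ^ j * 4 ^ j) := by ring
    _ = 9 * (1 / a * (1 / b + 1)) * (4 ^ j + R / 2 ^ j) := by
        have e8 : (8 : ℝ) ^ j = 2 ^ j * 4 ^ j := by rw [← mul_pow]; norm_num
        rw [e8]
        congr 2
        field_simp

end AM
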